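import Mathlib
import Pool.Agent.Lib.MP_8d161d_ag.CR.Defs

/-!
Definitions for the crossing estimate for hypersurfaces of degree `d`.
-/

open Filter Topology MvPolynomial MeasureTheory

namespace Pool.Agent.Lib.GGL.CV

open CR (JIx)

/-- The value of the coefficient `t₀` of the polynomial `i` for which it vanishes at the point
`phi w`. The polynomial `i` has the coefficients `p i t` at the monomials with exponents `ex t`; the
monomial `t₀` is `1`. -/
noncomputable def cst {N J n : ℕ} {T E : Type*} [Fintype T] [DecidableEq T] [CommRing E] (t₀ : T)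
    (ex : T → Fin n → ℕ) (p : Fin N → T → E) (w : JIx J n → E) (i : Fin N) : Polynomial E :=
  - ∑ t ∈ Finset.univ.erase t₀, Polynomial.C (p i t) * ∏ c, CR.phi w c ^ ex t c

/-- The polynomials `p`, with the constant terms of the polynomials `i` and `j` changed so that
both vanish at the point `phi w`, and the jet `w`. -/
noncomputable def crossPt {N J n : ℕ} {T E : Type*} [Fintype T] [DecidableEq T] [CommRing E]
    (t₀ : T) (ex : T → Fin n → ℕ) (p : Fin N → T → E) (w : JIx J n → E) (i j : Fin N) :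
    (Fin N × T) ⊕ JIx J n → Polynomial E :=
  Sum.elim (fun x => if (x.1 = i ∨ x.1 = j) ∧ x.2 = t₀ then cst t₀ ex p w x.1
    else Polynomial.C (p x.1 x.2)) fun x => Polynomial.C (w x)

/-- The coefficients `p` and the jet `w`. -/
def ppt {N J n : ℕ} {T E : Type*} (p : Fin N → T → E) (w : JIx J n → E) :
    (Fin N × T) ⊕ JIx J n → E :=
  Sum.elim (fun x => p x.1 x.2) w

/-- The weight of a monomial: a coordinate of order `l` of the jet has weight `l + 1`. -/
def jw {N J n : ℕ} {T : Type*} (m : (Fin N × T) ⊕ JIx J n →₀ ℕ) : ℕ :=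
  ∑ x : JIx J n, m (Sum.inr x) * ((x.1 : ℕ) + 1)

/-- `(Y 0) ^ A` times the value of `F` at the coefficients `p` and the jets of `Y / Y 0`, as an
entire function (for `F` of weight at most `A`). -/
noncomputable def auxFun {N J n : ℕ} {T : Type*} [Fintype T] (A : ℕ)
    (F : MvPolynomial ((Fin N × T) ⊕ JIx J n) ℂ) (p : Fin N → T → ℂ)
    (Y : ℂ → Fin (n + 1) → ℂ) (z : ℂ) : ℂ :=
  ∑ m ∈ F.support, coeff m F * (∏ x : Fin N × T, p x.1 x.2 ^ m (Sum.inl x)) *
    (Y z 0 ^ (A - jw m) *
      ∏ x : JIx J n, (CR.num Y x.2.succ x.1 z / ((x.1 : ℕ).factorial : ℂ)) ^ m (Sum.inr x))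

/-- The value at `y` of the form of degree `d` that has the coefficients `q t` at the monomials
with exponents `ex t` in the variables `1, ..., n`. -/
def val {n : ℕ} {T E : Type*} [Fintype T] [CommRing E] (d : ℕ) (ex : T → Fin n → ℕ) (q : T → E)
    (y : Fin (n + 1) → E) : E :=
  ∑ t, q t * (y 0 ^ (d - ∑ c, ex t c) * ∏ c, y c.succ ^ ex t c)

/-- The exponents of the monomials of degree `d` in `n + 1` variables. -/
abbrev Mon (n d : ℕ) : Type := {m : Fin (n + 1) → Fin (d + 1) // ∑ i, (m i : ℕ) = d}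

/-- The value at `y` of the form of degree `d` with coefficients `q`. -/
def form {n d : ℕ} {E : Type*} [CommRing E] (q : Mon n d → E) (y : Fin (n + 1) → E) : E :=
  ∑ t, q t * ∏ i, y i ^ (t.1 i : ℕ)

/-- The crossing estimate: the points at which at least two of the functions `h j`, `j ∉ S`, vanish
and `u` does not vanish are few, for some set `S` of at most `D` indices. -/
def CE {N n : ℕ} (D : ℕ) (c : ℝ) (u : ℂ → ℂ) (h : Fin N → ℂ → ℂ) (Y : ℂ → Fin (n + 1) → ℂ) :
    Prop :=
  ∃ (S : Finset (Fin N)) (C : ℝ) (E : Set ℝ), S.card ≤ D ∧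
    (∀ r : ℝ, ({z | u z ≠ 0 ∧ ∃ i j, i ∉ S ∧ j ∉ S ∧ i ≠ j ∧ h i z = 0 ∧ h j z = 0} ∩
      Metric.closedBall 0 r).Finite) ∧ 0 ≤ C ∧ volume E < ⊤ ∧
    ∀ r : ℝ, 1 ≤ r → r ∉ E →
      CR.count {z | u z ≠ 0 ∧ ∃ i j, i ∉ S ∧ j ∉ S ∧ i ≠ j ∧ h i z = 0 ∧ h j z = 0} r ≤
        c * SM.height Y r + C * (Real.log r + Real.posLog (SM.height Y r) + 1)

/-- The points at which at least one of the forms vanishes that do not vanish on the curve. -/
def meets {N n d : ℕ} (p : Fin N → Mon n d → ℂ) (Y : ℂ → Fin (n + 1) → ℂ) : Set ℂ :=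
  {z | ∃ j, (∃ z', form (p j) (Y z') ≠ 0) ∧ form (p j) (Y z) = 0}

end Pool.Agent.Lib.GGL.CV
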