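import Mathlib
import Pool.Agent.Lib.MP_8d161d_ag.CV.Defs
import Pool.Agent.Lib.MP_8d161d_ag.Mg.G009
import Pool.Agent.Lib.MP_8d161d_ag.SM.C1

/-!
The Veronese embedding and the second main theorem with truncation level one.
-/

open Filter Topology MvPolynomial MeasureTheory Module

namespace Pool.Agent.Lib.GGL.CV

open CR (JIx)

/-- A monomial of degree `d` with given exponents. -/
theorem v1_mon {n d : ℕ} (f : Fin (n + 1) → ℕ) (hf : ∑ i, f i = d) :
    ∃ t : Mon n d, ∀ i, (t.1 i : ℕ) = f i := by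
  have hlt : ∀ i, f i < d + 1 := by
    intro i
    have h1 : f i ≤ ∑ i, f i := Finset.single_le_sum (f := f) (fun _ _ => Nat.zero_le _)
      (Finset.mem_univ i)
    omega
  exact ⟨⟨fun i => ⟨f i, hlt i⟩, hf⟩, fun i => rfl⟩

/-- The monomials of degree `d` are `M + 1` in number. -/
theorem v1_equiv (n d : ℕ) : ∃ M : ℕ, Nonempty (Mon n d ≃ Fin (M + 1)) := by
  obtain ⟨t, -⟩ := v1_mon (n := n) (d := d) (fun i => if i = 0 then d else 0) (by simp)
  have h1 : 0 < Fintype.card (Mon n d) := Fintype.card_pos_iff.mpr ⟨t⟩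
  refine ⟨Fintype.card (Mon n d) - 1, ⟨Fintype.equivFinOfCardEq ?_⟩⟩
  omega

/-- The Veronese map. -/
def ver {n d M : ℕ} {E : Type*} [CommRing E] (e : Mon n d ≃ Fin (M + 1)) (y : Fin (n + 1) → E) :
    Fin (M + 1) → E := fun i => ∏ l, y l ^ ((e.symm i).1 l : ℕ)

theorem form_eq {n d M : ℕ} {E : Type*} [CommRing E] (e : Mon n d ≃ Fin (M + 1)) (q : Mon n d → E)
    (y : Fin (n + 1) → E) : form q y = (fun i => q (e.symm i)) ⬝ᵥ ver e y := by
  unfold form dotProduct ver
  refine Fintype.sum_equiv e _ _ fun t => ?_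
  simp only [Equiv.symm_apply_apply]

theorem ver_smul {n d M : ℕ} {E : Type*} [CommRing E] (e : Mon n d ≃ Fin (M + 1)) (a : E)
    (y : Fin (n + 1) → E) : ver e (a • y) = a ^ d • ver e y := by
  funext i
  simp only [ver, Pi.smul_apply, smul_eq_mul, mul_pow]
  rw [Finset.prod_mul_distrib, Finset.prod_pow_eq_pow_sum, (e.symm i).2]

theorem ver_ne {n d M : ℕ} (e : Mon n d ≃ Fin (M + 1)) {y : Fin (n + 1) → ℂ} (hy : y ≠ 0) :
    ver e y ≠ 0 := by
  obtain ⟨i, hi⟩ : ∃ i, y i ≠ 0 := by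
    by_contra h
    push Not at h
    exact hy (funext h)
  obtain ⟨t, ht⟩ := v1_mon (n := n) (d := d) (fun l => if l = i then d else 0) (by simp)
  intro h0
  have h1 := congrFun h0 (e t)
  simp only [ver, Equiv.symm_apply_apply, ht, Pi.zero_apply] at h1
  rw [Finset.prod_eq_zero_iff] at h1
  obtain ⟨l, -, hl⟩ := h1
  by_cases hli : l = i
  · rw [if_pos hli, hli] at hl
    rcases Nat.eq_zero_or_pos d with h2 | h2
    · rw [h2, pow_zero] at hl
      exact one_ne_zero hl
    · exact hi ((pow_eq_zero_iff h2.ne').mp hl)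
  · rw [if_neg hli, pow_zero] at hl
    exact one_ne_zero hl

theorem norm_ver {n d M : ℕ} (e : Mon n d ≃ Fin (M + 1)) (y : Fin (n + 1) → ℂ) :
    ‖ver e y‖ = ‖y‖ ^ d := by
  apply le_antisymm
  · rw [pi_norm_le_iff_of_nonneg (by positivity)]
    intro i
    simp only [ver]
    rw [norm_prod]
    calc ∏ l, ‖y l ^ ((e.symm i).1 l : ℕ)‖ ≤ ∏ l, ‖y‖ ^ ((e.symm i).1 l : ℕ) := by
          refine Finset.prod_le_prod (fun l _ => norm_nonneg _) fun l _ => ?_
          rw [norm_pow]
          exact pow_le_pow_left₀ (norm_nonneg _) (norm_le_pi_norm y l) _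
      _ = ‖y‖ ^ d := by rw [Finset.prod_pow_eq_pow_sum, (e.symm i).2]
  · obtain ⟨i, hi⟩ : ∃ i, ‖y i‖ = ‖y‖ := by
      obtain ⟨i, -, hi⟩ := Finset.exists_max_image Finset.univ (fun i => ‖y i‖)
        ⟨0, Finset.mem_univ _⟩
      refine ⟨i, le_antisymm (norm_le_pi_norm y i) ?_⟩
      rw [pi_norm_le_iff_of_nonneg (norm_nonneg _)]
      exact fun j => hi j (Finset.mem_univ j)
    obtain ⟨t, ht⟩ := v1_mon (n := n) (d := d) (fun l => if l = i then d else 0) (by simp)
    have h1 : ver e y (e t) = y i ^ d := by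
      simp only [ver, Equiv.symm_apply_apply, ht]
      rw [Finset.prod_eq_single i]
      · rw [if_pos rfl]
      · intro l _ hl
        rw [if_neg hl, pow_zero]
      · intro h
        exact absurd (Finset.mem_univ i) h
    rw [← hi, ← norm_pow, ← h1]
    exact norm_le_pi_norm (ver e y) (e t)

/-- The ideal of the Veronese variety. -/
noncomputable def verI {n d M : ℕ} (e : Mon n d ≃ Fin (M + 1)) :
    Ideal (MvPolynomial (Fin (M + 1)) ℂ) :=
  RingHom.ker (aeval (ver e (X : Fin (n + 1) → MvPolynomial (Fin (n + 1)) ℂ)) :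
    MvPolynomial (Fin (M + 1)) ℂ →ₐ[ℂ] MvPolynomial (Fin (n + 1)) ℂ)

theorem verI_eval {n d M : ℕ} (e : Mon n d ≃ Fin (M + 1)) {G : MvPolynomial (Fin (M + 1)) ℂ}
    (hG : G ∈ verI e) (y : Fin (n + 1) → ℂ) : eval (ver e y) G = 0 := by
  have h1 : (aeval (ver e (X : Fin (n + 1) → MvPolynomial (Fin (n + 1)) ℂ)) :
    MvPolynomial (Fin (M + 1)) ℂ →ₐ[ℂ] MvPolynomial (Fin (n + 1)) ℂ) G = 0 := hG
  have h2 : eval y ((aeval (ver e (X : Fin (n + 1) → MvPolynomial (Fin (n + 1)) ℂ)) :
    MvPolynomial (Fin (M + 1)) ℂ →ₐ[ℂ] MvPolynomial (Fin (n + 1)) ℂ) G) = eval (ver e y) G := by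
    have h3 : ∀ H : MvPolynomial (Fin (M + 1)) ℂ,
        eval y ((aeval (ver e (X : Fin (n + 1) → MvPolynomial (Fin (n + 1)) ℂ)) :
        MvPolynomial (Fin (M + 1)) ℂ →ₐ[ℂ] MvPolynomial (Fin (n + 1)) ℂ) H) =
        eval (ver e y) H := by
      intro H
      induction H using MvPolynomial.induction_on with
      | C a => simp
      | add p q hp hq => simp only [map_add, hp, hq]
      | mul_X p i hp =>
        rw [map_mul, map_mul, map_mul, hp, aeval_X, eval_X]
        congr 1
        simp [ver]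
    exact h3 G
  rw [← h2, h1, map_zero]

theorem verI_trdeg {n d M : ℕ} (e : Mon n d ≃ Fin (M + 1)) :
    Algebra.trdeg ℂ (MvPolynomial (Fin (M + 1)) ℂ ⧸ verI e) ≤ (n + 1 : ℕ) := by
  refine (trdeg_le_of_injective (Ideal.kerLiftAlg
    (aeval (ver e (X : Fin (n + 1) → MvPolynomial (Fin (n + 1)) ℂ)) :
    MvPolynomial (Fin (M + 1)) ℂ →ₐ[ℂ] MvPolynomial (Fin (n + 1)) ℂ))
    (Ideal.kerLiftAlg_injective _)).trans ?_
  rw [MvPolynomial.trdeg_of_isDomain]
  simp

theorem ver_X_homog {n d M : ℕ} (e : Mon n d ≃ Fin (M + 1)) (i : Fin (M + 1)) :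
    (ver e (X : Fin (n + 1) → MvPolynomial (Fin (n + 1)) ℂ) i).IsHomogeneous d := by
  have h1 := IsHomogeneous.prod (R := ℂ) Finset.univ
    (fun l : Fin (n + 1) => (X l : MvPolynomial (Fin (n + 1)) ℂ) ^ ((e.symm i).1 l : ℕ))
    (fun l => ((e.symm i).1 l : ℕ)) (fun l _ => by
      have := (isHomogeneous_X ℂ l).pow ((e.symm i).1 l : ℕ)
      rwa [one_mul] at this)
  rw [(e.symm i).2] at h1
  exact h1

theorem verI_homog {n d M : ℕ} (hd : 1 ≤ d) (e : Mon n d ≃ Fin (M + 1)) :
    ∀ g ∈ verI e, ∀ k, homogeneousComponent k g ∈ verI e := by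
  intro g hg k
  obtain ⟨φ, hφ⟩ : ∃ φ : MvPolynomial (Fin (M + 1)) ℂ →ₐ[ℂ] MvPolynomial (Fin (n + 1)) ℂ,
    φ = aeval (ver e (X : Fin (n + 1) → MvPolynomial (Fin (n + 1)) ℂ)) := ⟨_, rfl⟩
  have hg' : φ g = 0 := by rw [hφ]; exact hg
  show (aeval (ver e (X : Fin (n + 1) → MvPolynomial (Fin (n + 1)) ℂ)) :
    MvPolynomial (Fin (M + 1)) ℂ →ₐ[ℂ] MvPolynomial (Fin (n + 1)) ℂ) _ = 0
  rw [← hφ]
  have hcomp : ∀ j, (φ (homogeneousComponent j g)).IsHomogeneous (d * j) := by
    intro j
    rw [hφ]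
    exact (homogeneousComponent_isHomogeneous j g).aeval _ (fun i => ver_X_homog e i)
  have h2 : ∑ j ∈ Finset.range (g.totalDegree + 1), φ (homogeneousComponent j g) = 0 := by
    rw [← map_sum, sum_homogeneousComponent, hg']
  by_cases hk : k ∈ Finset.range (g.totalDegree + 1)
  · have h3 := congrArg (homogeneousComponent (d * k)) h2
    rw [map_sum, map_zero, Finset.sum_eq_single k] at h3
    · rwa [homogeneousComponent_of_mem (hcomp k), if_pos rfl] at h3
    · intro j _ hj
      have h4 : homogeneousComponent (d * k) (φ (homogeneousComponent j g)) =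
          if d * k = d * j then φ (homogeneousComponent j g) else 0 :=
        homogeneousComponent_of_mem (hcomp j)
      rw [h4, if_neg]
      intro h
      exact hj (Nat.eq_of_mul_eq_mul_left (by omega) h).symm
    · intro h
      exact absurd hk h
  · rw [Finset.mem_range, not_lt] at hk
    rw [homogeneousComponent_eq_zero k g (by omega), map_zero]

theorem ver_const {n d M : ℕ} (hd : 1 ≤ d) (e : Mon n d ≃ Fin (M + 1)) {Y : ℂ → Fin (n + 1) → ℂ}
    (h0 : ∀ z, Y z ≠ 0) (h : SM.IsConst fun z => ver e (Y z)) : SM.IsConst Y := by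
  intro z w
  obtain ⟨a, ha⟩ := h z w
  obtain ⟨i, hi⟩ : ∃ i, Y w i ≠ 0 := by
    by_contra h
    push Not at h
    exact h0 w (funext h)
  have hmon : ∀ j, Y z i ^ (d - 1) * Y z j = a * (Y w i ^ (d - 1) * Y w j) := by
    intro j
    obtain ⟨t, ht⟩ := v1_mon (n := n) (d := d)
      (fun l => (if l = i then d - 1 else 0) + (if l = j then 1 else 0)) (by
        rw [Finset.sum_add_distrib]
        simp
        omega)
    have h1 := congrFun ha (e t)
    have h2 : ∀ y : Fin (n + 1) → ℂ, ver e y (e t) = y i ^ (d - 1) * y j := by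
      intro y
      simp only [ver, Equiv.symm_apply_apply, ht, pow_add]
      rw [Finset.prod_mul_distrib]
      congr 1
      · rw [Finset.prod_eq_single i]
        · rw [if_pos rfl]
        · intro l _ hl
          rw [if_neg hl, pow_zero]
        · intro h
          exact absurd (Finset.mem_univ i) h
      · rw [Finset.prod_eq_single j]
        · rw [if_pos rfl, pow_one]
        · intro l _ hl
          rw [if_neg hl, pow_zero]
        · intro h
          exact absurd (Finset.mem_univ j) h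
    rw [Pi.smul_apply, smul_eq_mul] at h1
    rw [← h2, ← h2]
    exact h1
  have hzi : Y z i ≠ 0 := by
    intro hz
    have h1 := hmon i
    rw [hz, mul_zero] at h1
    have h2 : a = 0 := by
      rcases mul_eq_zero.mp h1.symm with h3 | h3
      · exact h3
      · exfalso
        rcases mul_eq_zero.mp h3 with h4 | h4
        · rcases Nat.eq_zero_or_pos (d - 1) with h5 | h5
          · rw [h5, pow_zero] at h4
            exact one_ne_zero h4
          · exact hi ((pow_eq_zero_iff h5.ne').mp h4)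
        · exact hi h4
    rw [h2] at ha
    simp only [zero_smul] at ha
    exact ver_ne e (h0 z) ha
  refine ⟨a * Y w i ^ (d - 1) / Y z i ^ (d - 1), ?_⟩
  funext j
  rw [Pi.smul_apply, smul_eq_mul, div_mul_eq_mul_div, eq_div_iff (pow_ne_zero _ hzi)]
  have := hmon j
  linear_combination this

/-- The second main theorem with truncation level one for general forms of degree `d`. -/
theorem level_one {n d N k : ℕ} (hd : 1 ≤ d) (hk : 7 ≤ k) (hN : 10 * k ^ 3 * (n + 1) ≤ N) :
    ∃ Θ : MvPolynomial (Fin N × Mon n d) ℂ, Θ ≠ 0 ∧ ∀ p : Fin N → Mon n d → ℂ,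
      eval (fun x : Fin N × Mon n d => p x.1 x.2) Θ ≠ 0 →
      ∀ Y : ℂ → Fin (n + 1) → ℂ, Differentiable ℂ Y → (∀ z, Y z ≠ 0) → ¬ SM.IsConst Y →
        ∃ (C : ℝ) (E : Set ℝ), 0 ≤ C ∧ volume E < ⊤ ∧ ∀ r : ℝ, 1 ≤ r → r ∉ E →
          (1 - 5 / (k : ℝ)) * N * d * SM.height Y r ≤
            (∑ j, open Classical in if ∃ z, form (p j) (Y z) ≠ 0 then
              SM.count1 (fun z => form (p j) (Y z)) r else 0) +
            C * (Real.log r + Real.posLog (SM.height Y r) + 1) := by
  classical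
  obtain ⟨M, ⟨e⟩⟩ := v1_equiv n d
  obtain ⟨Θ, hΘ, h⟩ := SM.general_smt (n := n) (M := M) (N := N) (k := k) hk hN (verI e)
    (verI_trdeg e)
  have hinj : Function.Injective (fun x : Fin N × Fin (M + 1) => (x.1, e.symm x.2)) := by
    rintro ⟨x1, x2⟩ ⟨y1, y2⟩ h
    rw [Prod.mk.injEq] at h ⊢
    exact ⟨h.1, e.symm.injective h.2⟩
  refine ⟨rename (fun x : Fin N × Fin (M + 1) => (x.1, e.symm x.2)) Θ, ?_, ?_⟩
  · intro h0
    exact hΘ (rename_injective _ hinj (by rw [h0, map_zero]))
  intro p hp Y hY h0 hnc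
  have hV : Differentiable ℂ fun z => ver e (Y z) := by
    rw [differentiable_pi]
    intro i
    simp only [ver]
    exact Differentiable.fun_finsetProd fun l _ => ((differentiable_pi.1 hY) l).pow _
  have hsmt := h (fun j i => p j (e.symm i)) (by rw [eval_rename] at hp; exact hp)
    (fun z => ver e (Y z)) hV (fun z => ver_ne e (h0 z)) (fun hc => hnc (ver_const hd e h0 hc))
    (by
      intro z a G hG
      obtain ⟨b, hb⟩ := IsAlgClosed.exists_pow_nat_eq a (n := d) (by omega)
      rw [← hb, ← ver_smul]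
      exact verI_eval e hG _)
  obtain ⟨C, E, hE, hsm⟩ := hsmt
  have hheight : ∀ r, SM.height (fun z => ver e (Y z)) r = d * SM.height Y r := by
    intro r
    unfold SM.height
    have h1 : (fun z => Real.log ‖ver e (Y z)‖) = fun z => (d : ℝ) • Real.log ‖Y z‖ := by
      funext z
      rw [norm_ver, Real.log_pow, smul_eq_mul]
    rw [h1, Real.circleAverage_fun_smul, smul_eq_mul]
  have hdR : (1 : ℝ) ≤ d := by exact_mod_cast hd
  have hld : 0 ≤ Real.log d := Real.log_nonneg hdR
  refine ⟨|C| * (1 + Real.log d), E, by positivity, hE, ?_⟩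
  intro r hr hrE
  have h1 := hsm r hr hrE
  rw [hheight] at h1
  have hterm : (∑ j, if ∃ z, (fun i => p j (e.symm i)) ⬝ᵥ ver e (Y z) ≠ 0 then
      SM.count1 (fun z => (fun i => p j (e.symm i)) ⬝ᵥ ver e (Y z)) r else 0) =
      ∑ j, if ∃ z, form (p j) (Y z) ≠ 0 then
              SM.count1 (fun z => form (p j) (Y z)) r else 0 := by
    refine Finset.sum_congr rfl fun j _ => ?_
    simp only [form_eq e]
  have h2 : C * (Real.log r + Real.posLog (d * SM.height Y r) + 1) ≤
      |C| * (1 + Real.log d) * (Real.log r + Real.posLog (SM.height Y r) + 1) := by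
    have hx : 0 ≤ Real.log r := Real.log_nonneg hr
    have hy : 0 ≤ Real.posLog (SM.height Y r) := Real.posLog_nonneg
    have hpl : Real.posLog (d * SM.height Y r) ≤ Real.log d + Real.posLog (SM.height Y r) := by
      refine Real.posLog_mul.trans ?_
      rw [Real.posLog_eq_log (by rw [abs_of_nonneg (by linarith)]; exact hdR)]
    have hx' : 0 ≤ Real.posLog (d * SM.height Y r) := Real.posLog_nonneg
    calc C * (Real.log r + Real.posLog (d * SM.height Y r) + 1)
        ≤ |C| * (Real.log r + Real.posLog (d * SM.height Y r) + 1) := by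
          exact mul_le_mul_of_nonneg_right (le_abs_self C) (by linarith)
      _ ≤ |C| * ((1 + Real.log d) * (Real.log r + Real.posLog (SM.height Y r) + 1)) := by
          refine mul_le_mul_of_nonneg_left ?_ (abs_nonneg C)
          nlinarith [mul_nonneg hld hx, mul_nonneg hld hy]
      _ = |C| * (1 + Real.log d) * (Real.log r + Real.posLog (SM.height Y r) + 1) := by ring
  have h3 : (1 - 5 / (k : ℝ)) * N * d * SM.height Y r =
      (1 - 5 / (k : ℝ)) * N * (d * SM.height Y r) := by ring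
  rw [h3]
  refine h1.trans (add_le_add ?_ h2)
  refine le_of_eq ?_
  rw [← hterm]

/-- At most `n` of the general forms vanish at a point. -/
theorem card_zero {n d N : ℕ} (hd : 1 ≤ d) :
    ∃ Θ : MvPolynomial (Fin N × Mon n d) ℂ, Θ ≠ 0 ∧ ∀ p : Fin N → Mon n d → ℂ,
      eval (fun x : Fin N × Mon n d => p x.1 x.2) Θ ≠ 0 →
      ∀ y : Fin (n + 1) → ℂ, y ≠ 0 → {j | form (p j) y = 0}.ncard ≤ n := by
  classical
  obtain ⟨M, ⟨e⟩⟩ := v1_equiv n d
  obtain ⟨Θ, hΘ, h⟩ := SM.card_through (n := n) (M := M) (N := N) (verI e) (verI_homog hd e)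
    (verI_trdeg e)
  have hinj : Function.Injective (fun x : Fin N × Fin (M + 1) => (x.1, e.symm x.2)) := by
    rintro ⟨x1, x2⟩ ⟨y1, y2⟩ h
    rw [Prod.mk.injEq] at h ⊢
    exact ⟨h.1, e.symm.injective h.2⟩
  refine ⟨rename (fun x : Fin N × Fin (M + 1) => (x.1, e.symm x.2)) Θ, ?_, ?_⟩
  · intro h0
    exact hΘ (rename_injective _ hinj (by rw [h0, map_zero]))
  intro p hp y hy
  have h1 := h (fun j i => p j (e.symm i)) (by rw [eval_rename] at hp; exact hp) (ver e y)
    (ver_ne e hy) (fun G hG => verI_eval e hG y)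
  simp only [form_eq e]
  exact h1

end Pool.Agent.Lib.GGL.CV
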