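import Mathlib
import Pool.Agent.Lib.MP_8d161d_ag.CV.Defs
import Pool.Agent.Lib.MP_8d161d_ag.Mg.G038
import Pool.Agent.Lib.MP_8d161d_ag.CV.V1
import Pool.Agent.Lib.MP_8d161d_ag.Mg.G040

/-!
The second main theorem, with every point of the union of the hypersurfaces counted once.
-/

open Filter Topology MvPolynomial MeasureTheory Module

namespace Pool.Agent.Lib.GGL.CV

open CR (JIx DiscFinite count_compare count_eq_count1 count_nonneg count_dot_le)

private theorem h3_sub {N : ℕ} (P : Fin N → Prop) [DecidablePred P] [Fintype {j // P j}]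
    (f : Fin N → ℝ) : ∑ x : {j // P j}, f x.1 = ∑ j, if P j then f j else 0 := by
  rw [← Finset.sum_filter, ← Finset.sum_subtype_eq_sum_filter]
  refine Finset.sum_congr ?_ fun _ _ => rfl
  ext x
  simp

private theorem h3_card {N : ℕ} (P Q : Fin N → Prop) [DecidablePred P] [DecidablePred Q]
    [Fintype {j // P j}] : ∑ x : {j // P j}, (if Q x.1 then (1 : ℝ) else 0) =
      (((Finset.univ.filter fun j => P j ∧ Q j).card : ℕ) : ℝ) := by
  rw [h3_sub P fun j => if Q j then (1 : ℝ) else 0, Finset.card_filter]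
  push_cast
  refine Finset.sum_congr rfl fun j _ => ?_
  by_cases hP : P j <;> by_cases hQ : Q j <;> simp [hP, hQ]

/-- The points with `Y z i₀ ≠ 0` at which two of the forms outside `S` vanish. -/
private def h3_cross {N n d : ℕ} (p : Fin N → Mon n d → ℂ) (Y : ℂ → Fin (n + 1) → ℂ)
    (i₀ : Fin (n + 1)) (S : Finset (Fin N)) : Set ℂ :=
  {z | Y z i₀ ≠ 0 ∧ ∃ i j, i ∉ S ∧ j ∉ S ∧ i ≠ j ∧ form (p i) (Y z) = 0 ∧ form (p j) (Y z) = 0}

/-- The pointwise inequality. -/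
private theorem h3_point {M N d : ℕ} {p : Fin N → Mon M d → ℂ} {Y : ℂ → Fin (M + 1) → ℂ}
    {i₀ : Fin (M + 1)} {S : Finset (Fin N)} {z : ℂ} (hz : {j | form (p j) (Y z) = 0}.ncard ≤ M) :
    open Classical in
    (((Finset.univ.filter fun j => (∃ z', form (p j) (Y z') ≠ 0) ∧ form (p j) (Y z) = 0).card : ℕ) : ℝ) ≤
      (if z ∈ meets p Y then 1 else 0) + M * (if z ∈ {z | Y z i₀ = 0} then 1 else 0) +
        M * (if z ∈ h3_cross p Y i₀ S then 1 else 0) +
        (((Finset.univ.filter fun j => ((∃ z', form (p j) (Y z') ≠ 0) ∧ j ∈ S) ∧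
          form (p j) (Y z) = 0).card : ℕ) : ℝ) := by
  classical
  set A := Finset.univ.filter fun j => (∃ z', form (p j) (Y z') ≠ 0) ∧ form (p j) (Y z) = 0 with hA
  set B := Finset.univ.filter fun j => ((∃ z', form (p j) (Y z') ≠ 0) ∧ j ∈ S) ∧ form (p j) (Y z) = 0 with hB
  have hAM : (A.card : ℝ) ≤ M := by
    have h1 : A.card ≤ {j | form (p j) (Y z) = 0}.ncard := by
      rw [← Set.ncard_coe_finset]
      refine Set.ncard_le_ncard ?_ (Set.toFinite _)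
      intro j hj
      have hj' : j ∈ A := hj
      rw [hA, Finset.mem_filter] at hj'
      exact hj'.2.2
    exact_mod_cast h1.trans hz
  have hM0 : (0 : ℝ) ≤ M := Nat.cast_nonneg _
  have hB0 : (0 : ℝ) ≤ B.card := Nat.cast_nonneg _
  have ho : ∀ P : Prop, (0 : ℝ) ≤ if P then 1 else 0 := fun P => by split_ifs <;> norm_num
  have k1 := ho (z ∈ meets p Y)
  have k2 := mul_nonneg hM0 (ho (z ∈ {z | Y z i₀ = 0}))
  have k3 := mul_nonneg hM0 (ho (z ∈ h3_cross p Y i₀ S))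
  rcases A.eq_empty_or_nonempty with h0 | ⟨j₀, hj₀⟩
  · rw [h0, Finset.card_empty, Nat.cast_zero]
    linarith
  by_cases hY : z ∈ {z | Y z i₀ = 0}
  · rw [if_pos hY] at k2 ⊢
    linarith
  by_cases hc : z ∈ h3_cross p Y i₀ S
  · rw [if_pos hc] at k3 ⊢
    linarith
  have hm : z ∈ meets p Y := by
    rw [hA, Finset.mem_filter] at hj₀
    exact ⟨j₀, hj₀.2.1, hj₀.2.2⟩
  rw [if_pos hm]
  have hsplit : A.card = (A.filter (· ∈ S)).card + (A.filter fun j => ¬ j ∈ S).card :=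
    (Finset.card_filter_add_card_filter_not (s := A) (· ∈ S)).symm
  have hle1 : (A.filter fun j => ¬ j ∈ S).card ≤ 1 := by
    rw [Finset.card_le_one]
    intro i hi j hj
    rw [Finset.mem_filter, hA, Finset.mem_filter] at hi hj
    by_contra hij
    exact hc ⟨hY, i, j, hi.2, hj.2, hij, hi.1.2.2, hj.1.2.2⟩
  have hAB : (A.filter (· ∈ S)).card ≤ B.card := by
    refine Finset.card_le_card fun j hj => ?_
    rw [Finset.mem_filter, hA, Finset.mem_filter] at hj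
    rw [hB, Finset.mem_filter]
    exact ⟨Finset.mem_univ _, ⟨hj.1.2.1, hj.2⟩, hj.1.2.2⟩
  have h2 : (A.card : ℝ) ≤ B.card + 1 := by
    have : A.card ≤ B.card + 1 := by omega
    exact_mod_cast this
  linarith

theorem once_smt {n d N k : ℕ} (hn : 1 ≤ n) (hd : 1 ≤ d) (hk : 1 ≤ k)
    (hN : 4 * 10 ^ 6 * n ^ 10 * k ^ 5 ≤ N) :
    ∃ Θ : MvPolynomial (Fin N × Mon n d) ℂ, Θ ≠ 0 ∧ ∀ p : Fin N → Mon n d → ℂ,
      eval (fun x : Fin N × Mon n d => p x.1 x.2) Θ ≠ 0 →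
      ∀ Y : ℂ → Fin (n + 1) → ℂ, Differentiable ℂ Y → (∀ z, Y z ≠ 0) → ¬ SM.IsConst Y →
        ∃ (C : ℝ) (E : Set ℝ), 0 ≤ C ∧ volume E < ⊤ ∧ ∀ r : ℝ, 1 ≤ r → r ∉ E →
          (1 - 1 / (k : ℝ)) * N * d * SM.height Y r ≤ CR.count (meets p Y) r +
            C * (Real.log r + Real.posLog (SM.height Y r) + 1) := by
  classical
  -- constants
  have hM : 1 ≤ n := hn
  have hM4 : n ^ 5 ≤ n ^ 10 := Nat.pow_le_pow_right hM (by norm_num)
  have hM1 : n ≤ n ^ 10 := Nat.le_self_pow (by norm_num) n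
  have hk2 : k ^ 2 ≤ k ^ 5 := Nat.pow_le_pow_right hk (by norm_num)
  have hk3 : k ^ 3 ≤ k ^ 5 := Nat.pow_le_pow_right hk (by norm_num)
  have hMk : 1 ≤ n ^ 10 * k ^ 5 := Nat.one_le_iff_ne_zero.2 (by positivity)
  set g : ℕ := 18 * n ^ 2 * k with hg
  have hg1 : 1 ≤ g := Nat.one_le_iff_ne_zero.2 (by positivity)
  set J : ℕ := 2 * g ^ 2 - 1 with hJdef
  have hJ : J + 1 = 2 * g ^ 2 := by
    have : 1 ≤ g ^ 2 := Nat.one_le_pow _ _ hg1
    omega
  have hJN : n * (J + 1) + 1 ≤ N := by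
    rw [hJ, hg]
    have h1 : n * (2 * (18 * n ^ 2 * k) ^ 2) = 648 * (n ^ 5 * k ^ 2) := by ring
    rw [h1]
    have h2 : n ^ 5 * k ^ 2 ≤ n ^ 10 * k ^ 5 := Nat.mul_le_mul hM4 hk2
    have h3 : 4 * 10 ^ 6 * n ^ 10 * k ^ 5 = 4000000 * (n ^ 10 * k ^ 5) := by ring
    rw [h3] at hN
    omega
  have hN15 : 10 * (15 * k) ^ 3 * (n + 1) ≤ N := by
    have h1 : 10 * (15 * k) ^ 3 * (n + 1) = 33750 * (k ^ 3 * (n + 1)) := by ring
    rw [h1]
    have h2 : k ^ 3 * (n + 1) ≤ k ^ 5 * (2 * n ^ 10) := Nat.mul_le_mul hk3 (by omega)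
    have h3 : 4 * 10 ^ 6 * n ^ 10 * k ^ 5 = 2000000 * (k ^ 5 * (2 * n ^ 10)) := by ring
    rw [h3] at hN
    omega
  obtain ⟨Θ₁, hΘ₁, h1⟩ := level_one (n := n) (d := d) (N := N) (k := 15 * k) hd (by omega) hN15
  obtain ⟨Θ₂, hΘ₂, h2⟩ := card_zero (n := n) (d := d) (N := N) hd
  obtain ⟨Θ₃, hΘ₃, h3⟩ := cross_all (N := N) (J := J) (n := n) (d := d) (g := g) hg1 hJ hJN
  refine ⟨Θ₁ * Θ₂ * Θ₃, mul_ne_zero (mul_ne_zero hΘ₁ hΘ₂) hΘ₃, ?_⟩
  intro p hp Y hY h0 hnc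
  rw [map_mul, map_mul] at hp
  have hp3 := right_ne_zero_of_mul hp
  have hp1 := left_ne_zero_of_mul (left_ne_zero_of_mul hp)
  have hp2 := right_ne_zero_of_mul (left_ne_zero_of_mul hp)
  obtain ⟨C₁, E₁, -, hE₁, hsm⟩ := h1 p hp1 Y hY h0 hnc
  have hthr : ∀ z, {j | form (p j) (Y z) = 0}.ncard ≤ n := fun z => h2 p hp2 (Y z) (h0 z)
  obtain ⟨i₀, hi₀⟩ : ∃ i₀, ∃ z, Y z i₀ ≠ 0 := by
    by_contra hcon
    push Not at hcon
    exact h0 0 (funext fun i => hcon i 0)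
  obtain ⟨S, C₃, E₃, hSD, hfin, hC₃, hE₃, hce⟩ := h3 p hp3 Y hY h0 i₀ hi₀
  -- first main theorem
  have hdot0 : ∀ z, (Pi.single i₀ (1 : ℂ)) ⬝ᵥ Y z = Y z i₀ := fun z => by
    rw [single_dotProduct, one_mul]
  obtain ⟨C₂, hC₂, hfm⟩ := count_dot_le hY h0 (Pi.single i₀ (1 : ℂ)) (by
    obtain ⟨z, hz⟩ := hi₀
    exact ⟨z, by rw [hdot0]; exact hz⟩)
  have hset : {z | (Pi.single i₀ (1 : ℂ)) ⬝ᵥ Y z = 0} = {z | Y z i₀ = 0} := by
    ext z
    show (Pi.single i₀ (1 : ℂ)) ⬝ᵥ Y z = 0 ↔ Y z i₀ = 0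
    rw [hdot0]
  rw [hset] at hfm
  have hfm2 : ∀ j : {j : Fin N // (∃ z', form (p j) (Y z') ≠ 0) ∧ j ∈ S}, ∃ C : ℝ, 0 ≤ C ∧
      ∀ r : ℝ, 1 ≤ r → CR.count {z | form (p j.1) (Y z) = 0} r ≤ d * SM.height Y r + C := fun j =>
    count_form_le hY h0 (p j.1) j.2.1
  choose Cj hCj hfmj using hfm2
  have hdiff : ∀ v : Mon n d → ℂ, Differentiable ℂ fun z => form v (Y z) := fun v =>
    form_differentiable hY v
  -- discreteness
  have hD1 : ∀ j : Fin N, (∃ z', form (p j) (Y z') ≠ 0) → DiscFinite {z | form (p j) (Y z) = 0} :=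
    fun j hj => DiscFinite.zeros (hdiff (p j)) hj
  have hD0 : DiscFinite {z | Y z i₀ = 0} := by
    have := DiscFinite.zeros (h := fun z => Y z i₀) ((differentiable_pi.1 hY) i₀) hi₀
    exact this
  have hDm : DiscFinite (meets p Y) := by
    intro r
    have hsub : meets p Y ∩ Metric.closedBall 0 r ⊆
        ⋃ j ∈ {j : Fin N | ∃ z', form (p j) (Y z') ≠ 0}, ({z | form (p j) (Y z) = 0} ∩ Metric.closedBall 0 r) := by
      rintro z ⟨⟨j, hj, hjz⟩, hzr⟩
      exact Set.mem_biUnion (show j ∈ {j : Fin N | ∃ z', form (p j) (Y z') ≠ 0} from hj) ⟨hjz, hzr⟩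
    exact (Set.Finite.biUnion (Set.toFinite _) fun j hj => hD1 j hj r).subset hsub
  have hDc : DiscFinite (h3_cross p Y i₀ S) := hfin
  -- sets and constants
  set D : ℕ := n * (J + 1) with hD
  set c : ℝ := ((12 * N * g * n * d + 2 * n * (J + 1) ^ 3 : ℕ) : ℝ) / ((J : ℝ) + 1) with hc
  set L : ℝ := n + n * c + D * d with hL
  have hkR : (1 : ℝ) ≤ k := by exact_mod_cast hk
  have hdR : (1 : ℝ) ≤ d := by exact_mod_cast hd
  have hgR : (g : ℝ) = 18 * n ^ 2 * k := by rw [hg]; push_cast; ring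
  have hMR : (1 : ℝ) ≤ n := by exact_mod_cast hM
  have hg0 : (0 : ℝ) < g := by exact_mod_cast hg1
  have hJR : (J : ℝ) + 1 = 2 * g ^ 2 := by exact_mod_cast hJ
  have hcv : c = 6 * N * n / g * d + 8 * n * g ^ 4 := by
    rw [hc]
    push_cast
    rw [hJR]
    field_simp
    ring
  have hc0 : 0 ≤ c := by rw [hcv]; positivity
  have hDR : (D : ℝ) = 2 * n * g ^ 2 := by
    rw [hD]; push_cast; rw [hJR]; ring
  have hLN : L ≤ 2 * N / (3 * k) * d := by
    have e1 : n * c = N / (3 * k) * d + 8 * n ^ 2 * g ^ 4 := by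
      rw [hcv, hgR]
      field_simp
      ring
    have e2 : (n : ℝ) + 8 * n ^ 2 * g ^ 4 + 2 * n * g ^ 2 ≤ 11 * n ^ 2 * g ^ 4 := by
      have hg1R : (1 : ℝ) ≤ g := by exact_mod_cast hg1
      have f1 : (1 : ℝ) ≤ g ^ 2 := one_le_pow₀ hg1R
      have f2 : (n : ℝ) ≤ n ^ 2 := by nlinarith
      have f3 : (1 : ℝ) ≤ g ^ 4 := one_le_pow₀ hg1R
      have f4 : (g : ℝ) ^ 2 ≤ g ^ 4 := pow_le_pow_right₀ hg1R (by norm_num)
      have f5 : (n : ℝ) ≤ n ^ 2 * g ^ 4 := by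
        calc (n : ℝ) ≤ n ^ 2 * 1 := by linarith
          _ ≤ n ^ 2 * g ^ 4 := mul_le_mul_of_nonneg_left f3 (by positivity)
      have f6 : (n : ℝ) * g ^ 2 ≤ n ^ 2 * g ^ 4 := mul_le_mul f2 f4 (by positivity) (by positivity)
      linarith
    have e3 : 11 * (n : ℝ) ^ 2 * g ^ 4 ≤ N / (3 * k) := by
      rw [le_div_iff₀ (by positivity), hgR]
      have f1 : 11 * (n : ℝ) ^ 2 * (18 * n ^ 2 * k) ^ 4 * (3 * k) = 3464208 * (n ^ 10 * k ^ 5) := by
        ring
      rw [f1]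
      have f2 : (4 * 10 ^ 6 * (n : ℝ) ^ 10 * k ^ 5) ≤ N := by exact_mod_cast hN
      have f3 : (0 : ℝ) ≤ n ^ 10 * k ^ 5 := by positivity
      nlinarith
    have e4 : 2 * (N : ℝ) / (3 * k) * d = N / (3 * k) * d + N / (3 * k) * d := by ring
    have e5 : ((n : ℝ) + 8 * n ^ 2 * g ^ 4 + 2 * n * g ^ 2) * d ≤ N / (3 * k) * d :=
      mul_le_mul_of_nonneg_right (e2.trans e3) (by linarith)
    have e6 : ((n : ℝ) + 8 * n ^ 2 * g ^ 4) * 1 ≤ ((n : ℝ) + 8 * n ^ 2 * g ^ 4) * d :=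
      mul_le_mul_of_nonneg_left hdR (by positivity)
    rw [hL, e1, hDR, e4]
    linarith
  have hL0 : 0 ≤ L := by rw [hL]; positivity
  set B : ℝ := n * C₂ + n * C₃ + (∑ j, Cj j) + |C₁| + L * C₂ + (2 * N / (3 * k) * d) * C₂ with hBdef
  have hsumC : 0 ≤ ∑ j, Cj j := Finset.sum_nonneg fun j _ => hCj j
  have hB0 : 0 ≤ B := by
    rw [hBdef]
    positivity
  refine ⟨B, E₁ ∪ E₃, hB0, ?_, ?_⟩
  · exact (measure_union_le _ _).trans_lt (ENNReal.add_lt_top.2 ⟨hE₁, hE₃⟩)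
  intro r hr hrE
  have hr1 : r ∉ E₁ := fun h => hrE (Or.inl h)
  have hr3 : r ∉ E₃ := fun h => hrE (Or.inr h)
  have q1 := hsm r hr hr1
  have q3 : CR.count (h3_cross p Y i₀ S) r ≤
      c * SM.height Y r + C₃ * (Real.log r + Real.posLog (SM.height Y r) + 1) := hce r hr hr3
  have q2 := hfm r hr
  set T := SM.height Y r with hT
  set e : ℝ := Real.log r + Real.posLog T + 1 with he
  have he1 : 1 ≤ e := by
    have h5 := Real.log_nonneg hr
    have h6 : 0 ≤ Real.posLog T := Real.posLog_nonneg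
    rw [he]; linarith
  have hT0 : 0 ≤ T + C₂ := by
    have h5 := count_nonneg {z | Y z i₀ = 0} hr
    linarith
  -- the comparison
  have hcmp := count_compare
    (α := {j : Fin N // ∃ z', form (p j) (Y z') ≠ 0})
    (β := Fin 3 ⊕ {j : Fin N // (∃ z', form (p j) (Y z') ≠ 0) ∧ j ∈ S})
    (Z := fun j => {z | form (p j.1) (Y z) = 0})
    (Z' := Sum.elim (fun i => if i = 0 then meets p Y else if i = 1 then {z | Y z i₀ = 0}
      else h3_cross p Y i₀ S) (fun j => {z | form (p j.1) (Y z) = 0}))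
    (fun j => hD1 j.1 j.2) (fun x => by
      rcases x with i | j
      · simp only [Sum.elim_inl]
        split_ifs
        · exact hDm
        · exact hD0
        · exact hDc
      · exact hD1 j.1 j.2.1)
    (fun _ => 1) (Sum.elim (fun i => if i = 0 then 1 else (n : ℝ)) (fun _ => 1))
    (fun z => by
      have h5 := h3_point (p := p) (Y := Y) (i₀ := i₀) (S := S) (hthr z)
      rw [Fintype.sum_sum_type, Fin.sum_univ_three]
      simp only [Sum.elim_inl, Sum.elim_inr, one_mul]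
      have h6 := h3_card (fun j : Fin N => ∃ z', form (p j) (Y z') ≠ 0)
        (fun j => form (p j) (Y z) = 0)
      have h7 := h3_card (fun j : Fin N => (∃ z', form (p j) (Y z') ≠ 0) ∧ j ∈ S)
        (fun j => form (p j) (Y z) = 0)
      have e01 : ((1 : Fin 3) = 0) = False := by simp
      have e02 : ((2 : Fin 3) = 0) = False := by simp
      have e12 : ((2 : Fin 3) = 1) = False := by decide
      simp only [if_true, e01, e02, e12, if_false]
      rw [← h6, ← h7] at h5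
      convert h5 using 2
      · rfl
      · rw [one_mul]
      · rfl)
    hr
  rw [Fintype.sum_sum_type, Fin.sum_univ_three] at hcmp
  have e01 : ((1 : Fin 3) = 0) = False := by simp
  have e02 : ((2 : Fin 3) = 0) = False := by simp
  have e12 : ((2 : Fin 3) = 1) = False := by decide
  simp only [Sum.elim_inl, Sum.elim_inr, one_mul, if_true, e01, e02, e12, if_false] at hcmp
  have hLHS : (∑ j, if ∃ z, form (p j) (Y z) ≠ 0 then SM.count1 (fun z => form (p j) (Y z)) r else 0) =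
      ∑ x : {j : Fin N // ∃ z', form (p j) (Y z') ≠ 0}, CR.count {z | form (p x.1) (Y z) = 0} r := by
    rw [← h3_sub (fun j => ∃ z, form (p j) (Y z) ≠ 0) (fun j => SM.count1 (fun z => form (p j) (Y z)) r)]
    refine Finset.sum_congr rfl fun x _ => ?_
    exact (count_eq_count1 (hdiff _) x.2 hr).symm
  rw [hLHS] at q1
  have hdT0 : 0 ≤ (d : ℝ) * (T + C₂) := mul_nonneg (by linarith) hT0
  have hS2 : ∑ x : {j : Fin N // (∃ z', form (p j) (Y z') ≠ 0) ∧ j ∈ S},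
      CR.count {z | form (p x.1) (Y z) = 0} r ≤ D * (d * (T + C₂)) + ∑ j, Cj j := by
    have f1 : ∑ x : {j : Fin N // (∃ z', form (p j) (Y z') ≠ 0) ∧ j ∈ S},
        CR.count {z | form (p x.1) (Y z) = 0} r ≤
        ∑ x : {j : Fin N // (∃ z', form (p j) (Y z') ≠ 0) ∧ j ∈ S}, (d * (T + C₂) + Cj x) :=
      Finset.sum_le_sum fun x _ => by
        have g1 := hfmj x r hr
        have g2 : 0 ≤ (d : ℝ) * C₂ := mul_nonneg (by linarith) hC₂
        have g3 : (d : ℝ) * (T + C₂) = d * T + d * C₂ := by ring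
        rw [g3]
        linarith only [g1, g2]
    rw [Finset.sum_add_distrib, Finset.sum_const, nsmul_eq_mul, Finset.card_univ] at f1
    have f2 : Fintype.card {j : Fin N // (∃ z', form (p j) (Y z') ≠ 0) ∧ j ∈ S} ≤ D := by
      refine le_trans ?_ hSD
      rw [Fintype.card_subtype]
      refine Finset.card_le_card fun j hj => ?_
      rw [Finset.mem_filter] at hj
      exact hj.2.2
    have f3 : ((Fintype.card {j : Fin N // (∃ z', form (p j) (Y z') ≠ 0) ∧ j ∈ S} : ℕ) : ℝ) ≤ D := by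
      exact_mod_cast f2
    have f4 := mul_le_mul_of_nonneg_right f3 hdT0
    linarith only [f1, f4]
  have q2' := mul_le_mul_of_nonneg_left q2 (Nat.cast_nonneg n : (0 : ℝ) ≤ n)
  have q3' := mul_le_mul_of_nonneg_left q3 (Nat.cast_nonneg n : (0 : ℝ) ≤ n)
  have hMc : (n : ℝ) * (c * T) ≤ n * c * (T + C₂) := by
    have : 0 ≤ n * c * C₂ := by positivity
    linarith only [this, (by ring : (n : ℝ) * (c * T) = n * c * T),
      (by ring : (n : ℝ) * c * (T + C₂) = n * c * T + n * c * C₂)]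
  have hLT : L * (T + C₂) ≤ 2 * N / (3 * k) * d * (T + C₂) := mul_le_mul_of_nonneg_right hLN hT0
  have hLe : L * (T + C₂) = n * (T + C₂) + n * c * (T + C₂) + D * (d * (T + C₂)) := by rw [hL]; ring
  have hC1e : C₁ * e ≤ |C₁| * e := mul_le_mul_of_nonneg_right (le_abs_self _) (by linarith)
  have hk15 : (1 - 5 / ((15 * k : ℕ) : ℝ)) = 1 - 1 / k + 2 / (3 * k) := by
    push_cast
    field_simp
    ring
  rw [hk15] at q1
  have hq : (1 - 1 / (k : ℝ) + 2 / (3 * k)) * N * d * T =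
      (1 - 1 / (k : ℝ)) * N * d * T + 2 * N / (3 * k) * d * T := by ring
  rw [hq] at q1
  have hBe : n * C₃ * e + (∑ j, Cj j) + |C₁| * e + (2 * N / (3 * k) * d) * C₂ ≤ B * e := by
    rw [hBdef]
    have g1 : (∑ j, Cj j) ≤ (∑ j, Cj j) * e := le_mul_of_one_le_right hsumC he1
    have g2 : (2 * (N : ℝ) / (3 * k) * d) * C₂ ≤ (2 * N / (3 * k) * d) * C₂ * e :=
      le_mul_of_one_le_right (by positivity) he1
    have g3 : 0 ≤ n * C₂ * e := by positivity
    have g4 : 0 ≤ L * C₂ * e := by positivity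
    have g5 : (n * C₂ + n * C₃ + (∑ j, Cj j) + |C₁| + L * C₂ + (2 * N / (3 * k) * d) * C₂) * e =
        n * C₂ * e + n * C₃ * e + (∑ j, Cj j) * e + |C₁| * e + L * C₂ * e +
        (2 * N / (3 * k) * d) * C₂ * e := by ring
    rw [g5]
    linarith only [g1, g2, g3, g4]
  have hM3 : (n : ℝ) * (c * T + C₃ * e) = n * (c * T) + n * C₃ * e := by ring
  rw [hM3] at q3'
  linarith only [q1, hcmp, q2', q3', hMc, hLT, hLe, hC1e, hBe, hS2]

end Pool.Agent.Lib.GGL.CV
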