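import Mathlib
import Pool.Agent.Lib.MP_8d161d_ag.CV.Defs
import Pool.Agent.Lib.MP_8d161d_ag.Mg.G040
import Pool.Agent.Lib.MP_8d161d_ag.SM.C5

/-!
Curves that are ramified over the union of the hypersurfaces.
-/

open Filter Topology MvPolynomial MeasureTheory Module

namespace Pool.Agent.Lib.GGL.CV

open CR (JIx)


/-- A curve that meets the union of the hypersurfaces only with total order at least `m` is
constant, or lies in one of them. -/
theorem const_of_orders {n d N k m : ℕ} (hd : 1 ≤ d) (hk : 1 ≤ k) (hN : 1 ≤ N)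
    (hm : k < m * (k - 1)) {p : Fin N → Mon n d → ℂ}
    (hsmt : ∀ Y : ℂ → Fin (n + 1) → ℂ, Differentiable ℂ Y → (∀ z, Y z ≠ 0) → ¬ SM.IsConst Y →
        ∃ (C : ℝ) (E : Set ℝ), 0 ≤ C ∧ volume E < ⊤ ∧ ∀ r : ℝ, 1 ≤ r → r ∉ E →
          (1 - 1 / (k : ℝ)) * N * d * SM.height Y r ≤ CR.count (meets p Y) r +
            C * (Real.log r + Real.posLog (SM.height Y r) + 1))
    {Y : ℂ → Fin (n + 1) → ℂ} (hY : Differentiable ℂ Y) (h0 : ∀ z, Y z ≠ 0)
    (hne : ∀ j, ∃ z, form (p j) (Y z) ≠ 0)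
    (hord : ∀ z, (∃ j, form (p j) (Y z) = 0) →
      (m : ℕ∞) ≤ ∑ j, analyticOrderAt (fun z => form (p j) (Y z)) z) : SM.IsConst Y := by
  classical
  by_contra hnc
  have hdot : ∀ j, Differentiable ℂ fun z => form (p j) (Y z) := fun j =>
    form_differentiable hY (p j)
  have hYe : Differentiable ℂ fun z => Y (Complex.exp z) := hY.comp Complex.differentiable_exp
  have hdote : ∀ j, Differentiable ℂ fun z => form (p j) (Y (Complex.exp z)) := fun j =>
    (hdot j).comp Complex.differentiable_exp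
  have hne' : ∀ j, ∃ z, form (p j) (Y (Complex.exp z)) ≠ 0 := by
    intro j
    by_contra hcon
    push Not at hcon
    obtain ⟨z, hz⟩ := hne j
    apply hz
    have h2 : (fun z => form (p j) (Y z)) = fun _ => 0 :=
      Continuous.ext_on (s := {(0 : ℂ)}ᶜ) (dense_compl_singleton (0 : ℂ))
        (hdot j).continuous continuous_const (fun z hz => by
          have := hcon (Complex.log z)
          rwa [Complex.exp_log hz] at this)
    exact congrFun h2 z
  have hnce : ¬ SM.IsConst fun z => Y (Complex.exp z) := fun h =>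
    hnc (SM.isConst_of_exp hY h0 h)
  obtain ⟨C, E, hC, hE, hsmt⟩ := hsmt _ hYe (fun z => h0 _) hnce
  obtain ⟨c, C₁, hc, hgrow⟩ := SM.height_exp hY h0 hnc
  have hmeets : meets p (fun z => Y (Complex.exp z)) =
      {z | ∃ j, form (p j) (Y (Complex.exp z)) = 0} := by
    ext z
    constructor
    · rintro ⟨j, -, hj⟩
      exact ⟨j, hj⟩
    · rintro ⟨j, hj⟩
      exact ⟨j, hne' j, hj⟩
  obtain ⟨C₂, hC₂⟩ := CR.count_orders (m := m) hdote hne' (by
    rintro z ⟨j, hj⟩
    have h1 := hord (Complex.exp z) ⟨j, hj⟩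
    have h2 : ∑ j, analyticOrderAt (fun z => form (p j) (Y z)) (Complex.exp z) =
        ((∑ j, analyticOrderNatAt (fun z => form (p j) (Y (Complex.exp z))) z : ℕ) : ℕ∞) := by
      rw [Nat.cast_sum]
      refine Finset.sum_congr rfl fun j _ => ?_
      rw [Nat.cast_analyticOrderNatAt (SM.e4_order_ne_top (hdote j) (hne' j) z)]
      exact (SM.order_exp (hdot j) z).symm
    rw [h2, Nat.cast_le] at h1
    exact h1)
  have havg : ∀ j, ∃ C : ℝ, 0 ≤ C ∧ ∀ r : ℝ, 1 ≤ r →
      Real.circleAverage (fun z => Real.log ‖form (p j) (Y (Complex.exp z))‖) 0 r ≤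
        d * SM.height (fun z => Y (Complex.exp z)) r + C := fun j =>
    average_form_le hYe (fun z => h0 _) (p j) (hne' j)
  choose K _ hK using havg
  have hk0 : (0 : ℝ) < k := by exact_mod_cast hk
  have hN0 : (0 : ℝ) < N := by exact_mod_cast hN
  have hd0 : (0 : ℝ) < d := by exact_mod_cast hd
  have hm' : (k : ℝ) < m * ((k : ℝ) - 1) := by
    have h1 : ((k - 1 : ℕ) : ℝ) = (k : ℝ) - 1 := by rw [Nat.cast_sub hk, Nat.cast_one]
    rw [← h1]
    exact_mod_cast hm
  have hpos : (0 : ℝ) < (m * ((k : ℝ) - 1) - k) * N * d :=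
    mul_pos (mul_pos (sub_pos.2 hm') hN0) hd0
  obtain ⟨C₃, hC₃⟩ : ∃ C₃ : ℝ, C₃ = ∑ j, K j + C₂ := ⟨_, rfl⟩
  refine SM.growth_contradiction (C' := k * |C₃| + k * m * C) hc hpos hgrow hE ?_
  intro r hr hrE
  have h1 := hsmt r hr hrE
  have h2 := hC₂ r hr
  rw [hmeets] at h1
  obtain ⟨T, hT⟩ : ∃ T, T = SM.height (fun z => Y (Complex.exp z)) r := ⟨_, rfl⟩
  obtain ⟨P, hP⟩ : ∃ P, P = CR.count {z | ∃ j, form (p j) (Y (Complex.exp z)) = 0} r := ⟨_, rfl⟩
  have h3 : ∑ j, Real.circleAverage (fun z => Real.log ‖form (p j) (Y (Complex.exp z))‖) 0 r ≤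
      N * (d * T) + ∑ j, K j := by
    calc ∑ j, Real.circleAverage (fun z => Real.log ‖form (p j) (Y (Complex.exp z))‖) 0 r ≤
          ∑ j, (d * T + K j) := Finset.sum_le_sum fun j _ => by rw [hT]; exact hK j r hr
      _ = N * (d * T) + ∑ j, K j := by
          rw [Finset.sum_add_distrib, Finset.sum_const, Finset.card_univ, Fintype.card_fin,
            nsmul_eq_mul]
  have hX : 0 ≤ Real.log r + Real.posLog T :=
    add_nonneg (Real.log_nonneg hr) Real.posLog_nonneg
  rw [← hT, ← hP] at h1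
  rw [← hP] at h2
  rw [← hT]
  have h4 : (m : ℝ) * P ≤ N * (d * T) + C₃ := by
    rw [hC₃]
    linarith
  have h5 : (k : ℝ) * ((1 - 1 / (k : ℝ)) * N * d * T) = (k - 1) * N * d * T := by
    field_simp
  have hkm : (0 : ℝ) ≤ m := Nat.cast_nonneg m
  have h6 := mul_le_mul_of_nonneg_left h1 hk0.le
  rw [h5] at h6
  have h7 := mul_le_mul_of_nonneg_left h6 hkm
  have h8 := mul_le_mul_of_nonneg_left h4 hk0.le
  have h9 : (k : ℝ) * C₃ ≤ k * |C₃| * (Real.log r + Real.posLog T + 1) := by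
    have a1 : C₃ ≤ |C₃| := le_abs_self C₃
    have a2 : (k : ℝ) * C₃ ≤ k * |C₃| := mul_le_mul_of_nonneg_left a1 hk0.le
    have a3 : 0 ≤ (k : ℝ) * |C₃| := mul_nonneg hk0.le (abs_nonneg _)
    nlinarith
  calc (m * ((k : ℝ) - 1) - k) * N * d * T = m * ((k - 1) * N * d * T) - k * (N * (d * T)) := by
        ring
    _ ≤ m * (k * (P + C * (Real.log r + Real.posLog T + 1))) - k * (m * P - C₃) := by linarith
    _ = k * C₃ + k * m * C * (Real.log r + Real.posLog T + 1) := by ring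
    _ ≤ k * |C₃| * (Real.log r + Real.posLog T + 1) +
        k * m * C * (Real.log r + Real.posLog T + 1) := by linarith
    _ = (k * |C₃| + k * m * C) * (Real.log r + Real.posLog T + 1) := by ring

end Pool.Agent.Lib.GGL.CV
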