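import Mathlib
import Pool.Agent.Lib.MP_8d161d_ag.Defs
import Pool.Agent.Lib.MP_8d161d_ag.Cover
import Pool.Agent.Lib.MP_8d161d_ag.CV.Defs

/-!
Cyclic covers that are branched along a union of hypersurface sections.
-/

open Filter Topology MvPolynomial

namespace Pool.Agent.Lib.GGL.CV

/-- Every holomorphic arc in `X` whose image under `φ` meets the union of the hypersurfaces
`form (p j) = 0` at a point meets it there with total order at least `μ`: the orders of vanishing
of the `form (p j) G` add up to at least `μ` (possibly to infinity), for every holomorphic lift `G`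
of the image. -/
def MeetsUnionWithOrder {m n d N : ℕ} (μ : ℕ) (X : Set (PSpace m)) (φ : PSpace m → PSpace n)
    (p : Fin N → Mon n d → ℂ) : Prop :=
  ∀ (c : ℂ → PSpace m) (z₀ : ℂ), HolomorphicNear c z₀ → (∀ᶠ z in 𝓝 z₀, c z ∈ X) →
    ∀ G : ℂ → Fin (n + 1) → ℂ, IsLift (fun z => φ (c z)) G z₀ →
      (∃ j, form (p j) (G z₀) = 0) →
        (μ : ℕ∞) ≤ ∑ j, analyticOrderAt (fun z => form (p j) (G z)) z₀

/-- The product of the forms `form (p j) ∘ φ` is locally on `X` a `μ`-th power: near every point of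
`X` the map `φ` is given by forms `Φ i` of one degree, and the product of the `form (p j) Φ`,
multiplied with a form `U` that does not vanish at the point, is on `X` the `μ`-th power of a form
`W` (of the right degree). For example `X` is the cyclic cover `w ^ μ = ∏ j, form (p j) y` of a
subvariety of `P^n`. -/
def ProductIsPower {m n d N : ℕ} (μ : ℕ) (X : Set (PSpace m)) (φ : PSpace m → PSpace n)
    (p : Fin N → Mon n d → ℂ) : Prop :=
  ∀ x ∈ X, ∃ (e a b : ℕ) (Φ : Fin (n + 1) → MvPolynomial (Fin (m + 1)) ℂ)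
    (U W : MvPolynomial (Fin (m + 1)) ℂ),
    (∀ i, (Φ i).IsHomogeneous e) ∧ U.IsHomogeneous a ∧ W.IsHomogeneous b ∧
    a + N * (d * e) = μ * b ∧ (∃ i, eval x.rep (Φ i) ≠ 0) ∧ eval x.rep U ≠ 0 ∧
    (∀ y ∈ X, ∀ h : (fun i => eval y.rep (Φ i)) ≠ 0,
      φ y = Projectivization.mk ℂ (fun i => eval y.rep (Φ i)) h) ∧
    ∀ y ∈ X, eval y.rep U * ∏ j, form (p j) (fun i => eval y.rep (Φ i)) = eval y.rep W ^ μ

private lemma k3_order_prod {ι : Type*} (s : Finset ι) {f : ι → ℂ → ℂ} {z₀ : ℂ}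
    (hf : ∀ i ∈ s, AnalyticAt ℂ (f i) z₀) :
    AnalyticAt ℂ (fun z => ∏ i ∈ s, f i z) z₀ ∧
      analyticOrderAt (fun z => ∏ i ∈ s, f i z) z₀ = ∑ i ∈ s, analyticOrderAt (f i) z₀ := by
  classical
  induction s using Finset.induction_on with
  | empty =>
    simp only [Finset.prod_empty, Finset.sum_empty]
    exact ⟨analyticAt_const, analyticOrderAt_eq_zero.2 (Or.inr one_ne_zero)⟩
  | insert i s hi ih =>
    obtain ⟨h1, h2⟩ := ih fun j hj => hf j (Finset.mem_insert_of_mem hj)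
    have h3 := hf i (Finset.mem_insert_self i s)
    have h4 : (fun z => ∏ j ∈ insert i s, f j z) = f i * fun z => ∏ j ∈ s, f j z := by
      funext z
      rw [Finset.prod_insert hi]
      rfl
    rw [h4]
    refine ⟨h3.mul h1, ?_⟩
    rw [analyticOrderAt_mul h3 h1, h2, Finset.sum_insert hi]

private lemma k3_form_smul {n d : ℕ} (q : Mon n d → ℂ) (l : ℂ) (y : Fin (n + 1) → ℂ) :
    form q (l • y) = l ^ d * form q y := by
  unfold form
  rw [Finset.mul_sum]
  refine Finset.sum_congr rfl fun t _ => ?_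
  have h1 : ∏ i, (l • y) i ^ (t.1 i : ℕ) = l ^ d * ∏ i, y i ^ (t.1 i : ℕ) := by
    simp only [Pi.smul_apply, smul_eq_mul, mul_pow]
    rw [Finset.prod_mul_distrib, Finset.prod_pow_eq_pow_sum, t.2]
  rw [h1]
  ring

private lemma k3_form_analytic {n d : ℕ} (q : Mon n d → ℂ) {F : ℂ → Fin (n + 1) → ℂ} {z₀ : ℂ}
    (hF : AnalyticAt ℂ F z₀) : AnalyticAt ℂ (fun z => form q (F z)) z₀ := by
  have h3 : ∀ i, AnalyticAt ℂ (fun z => F z i) z₀ := fun i => analyticAt_pi_iff.1 hF i
  unfold form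
  exact Finset.analyticAt_fun_sum _ fun t _ => analyticAt_const.mul
    (Finset.analyticAt_fun_prod _ fun i _ => (h3 i).pow _)

theorem ProductIsPower.meets {m n d N μ : ℕ} {X : Set (PSpace m)} {φ : PSpace m → PSpace n}
    {p : Fin N → Mon n d → ℂ} (h : ProductIsPower μ X φ p) :
    IsRegularOn X φ ∧ MeetsUnionWithOrder μ X φ p := by
  refine ⟨fun x hx => ?_, ?_⟩
  · obtain ⟨e, a, b, Φ, U, W, h1, -, -, -, h5, -, h7, -⟩ := h x hx
    exact ⟨e, Φ, h1, h5, h7⟩
  intro c z₀ hc hcX G hG hj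
  obtain ⟨H, hHan, hH⟩ := hc
  obtain ⟨e, a, b, Φ, U, W, hΦ, hU, hW, hab, ⟨i, hi⟩, hU0, hφ, hpow⟩ := h (c z₀) hcX.self_of_nhds
  have hrep : ∀ z (h : H z ≠ 0), c z = Projectivization.mk ℂ (H z) h →
      ∃ l : ℂ, l ≠ 0 ∧ (c z).rep = l • H z := by
    intro z h hz
    obtain ⟨l, hl⟩ := Projectivization.exists_smul_eq_mk_rep ℂ (H z) h
    refine ⟨l, l.ne_zero, ?_⟩
    rw [hz, ← hl]
    rfl
  obtain ⟨h1, h2⟩ := hH.self_of_nhds
  obtain ⟨l₀, hl₀, hl₀r⟩ := hrep z₀ h1 h2
  have hF0 : eval (H z₀) (Φ i) ≠ 0 := by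
    rw [hl₀r, eval_smul_of_homogeneous (hΦ i)] at hi
    exact right_ne_zero_of_mul hi
  have hUH0 : eval (H z₀) U ≠ 0 := by
    rw [hl₀r, eval_smul_of_homogeneous hU] at hU0
    exact right_ne_zero_of_mul hU0
  obtain ⟨F, hF⟩ : ∃ F : ℂ → Fin (n + 1) → ℂ, F = fun z i => eval (H z) (Φ i) := ⟨_, rfl⟩
  have hFL : IsLift (fun z => φ (c z)) F z₀ := by
    rw [hF]
    refine ⟨?_, ?_⟩
    · rw [analyticAt_pi_iff]
      intro j
      exact analyticAt_eval hHan (Φ j)
    · filter_upwards [hH, hcX, (analyticAt_eval hHan (Φ i)).continuousAt.eventually_ne hF0]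
        with z ⟨h1, h2⟩ h3 h4
      obtain ⟨l, hl, hl2⟩ := hrep z h1 h2
      have h5 : (fun i => eval (H z) (Φ i)) ≠ 0 := fun h => h4 (congrFun h i)
      have h6 : (fun i => eval (c z).rep (Φ i)) = l ^ e • fun i => eval (H z) (Φ i) := by
        funext j
        rw [hl2, eval_smul_of_homogeneous (hΦ j), Pi.smul_apply, smul_eq_mul]
      have h7 : (fun i => eval (c z).rep (Φ i)) ≠ 0 := by
        rw [h6]
        exact smul_ne_zero (pow_ne_zero _ hl) h5
      refine ⟨h5, ?_⟩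
      rw [hφ (c z) h3 h7, Projectivization.mk_eq_mk_iff']
      exact ⟨l ^ e, h6.symm⟩
  obtain ⟨u, hu, hu0, huG⟩ := lift_ratio hFL hG
  have hFan : ∀ j, AnalyticAt ℂ (fun z => form (p j) (F z)) z₀ :=
    fun j => k3_form_analytic (p j) hFL.1
  have hord : ∀ j, analyticOrderAt (fun z => form (p j) (G z)) z₀ =
      analyticOrderAt (fun z => form (p j) (F z)) z₀ := by
    intro j
    have h3 : (fun z => form (p j) (G z)) =ᶠ[𝓝 z₀] (u ^ d) * fun z => form (p j) (F z) := by
      filter_upwards [huG] with z hz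
      rw [hz, k3_form_smul]
      rfl
    rw [analyticOrderAt_congr h3, analyticOrderAt_mul (hu.pow d) (hFan j),
      analyticOrderAt_eq_zero.2 (Or.inr (by
        rw [Pi.pow_apply]
        exact pow_ne_zero d hu0)), zero_add]
  have hid : (fun z => eval (H z) W) ^ μ =ᶠ[𝓝 z₀]
      (fun z => eval (H z) U) * fun z => ∏ j, form (p j) (F z) := by
    filter_upwards [hH, hcX] with z ⟨h1, h2⟩ h3
    obtain ⟨l, hl, hl2⟩ := hrep z h1 h2
    have h4 := hpow (c z) h3
    have h5 : ∀ j, form (p j) (fun i => eval (c z).rep (Φ i)) =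
        l ^ (d * e) * form (p j) (F z) := by
      intro j
      have h6 : (fun i => eval (c z).rep (Φ i)) = l ^ e • F z := by
        funext j
        rw [hl2, eval_smul_of_homogeneous (hΦ j), Pi.smul_apply, smul_eq_mul, hF]
      rw [h6, k3_form_smul, ← pow_mul, mul_comm e d]
    simp only [h5] at h4
    rw [Finset.prod_mul_distrib, Finset.prod_const, Finset.card_univ, Fintype.card_fin, hl2,
      eval_smul_of_homogeneous hU, eval_smul_of_homogeneous hW, mul_pow, ← pow_mul, ← pow_mul,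
      mul_comm b μ, ← hab, mul_comm (d * e) N] at h4
    have h6 : l ^ (a + N * (d * e)) * (eval (H z) U * ∏ j, form (p j) (F z)) =
        l ^ (a + N * (d * e)) * eval (H z) W ^ μ := by
      rw [← h4, pow_add]
      ring
    exact (mul_left_cancel₀ (pow_ne_zero _ hl) h6).symm
  obtain ⟨hPan, hP⟩ := k3_order_prod (Finset.univ : Finset (Fin N)) (fun j _ => hFan j)
  have hWan : AnalyticAt ℂ (fun z => eval (H z) W) z₀ := analyticAt_eval hHan W
  have hU1 : analyticOrderAt (fun z => eval (H z) U) z₀ = 0 :=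
    analyticOrderAt_eq_zero.2 (Or.inr hUH0)
  have hsum : ∑ j, analyticOrderAt (fun z => form (p j) (G z)) z₀ =
      μ • analyticOrderAt (fun z => eval (H z) W) z₀ := by
    rw [← analyticOrderAt_pow hWan, analyticOrderAt_congr hid,
      analyticOrderAt_mul (analyticAt_eval hHan U) hPan, hU1, zero_add, hP]
    exact Finset.sum_congr rfl fun j _ => hord j
  rw [hsum]
  rcases Nat.eq_zero_or_pos μ with rfl | hμ
  · simp
  · have h3 : eval (H z₀) W = 0 := by
      obtain ⟨j, hj⟩ := hj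
      have h4 : form (p j) (F z₀) = 0 := by
        have h5 := huG.self_of_nhds
        rw [h5, k3_form_smul] at hj
        exact (mul_eq_zero.1 hj).resolve_left (pow_ne_zero d hu0)
      have h5 : eval (H z₀) W ^ μ = eval (H z₀) U * ∏ j, form (p j) (F z₀) := hid.self_of_nhds
      rw [Finset.prod_eq_zero (Finset.mem_univ j) h4, mul_zero] at h5
      exact eq_zero_of_pow_eq_zero h5
    have h4 : (1 : ℕ∞) ≤ analyticOrderAt (fun z => eval (H z) W) z₀ :=
      Order.one_le_iff_ne_zero.2 (analyticOrderAt_ne_zero.2 ⟨hWan, h3⟩)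
    rw [nsmul_eq_mul]
    calc (μ : ℕ∞) = (μ : ℕ∞) * 1 := (mul_one _).symm
      _ ≤ _ := by gcongr

end Pool.Agent.Lib.GGL.CV
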