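import Mathlib
import Pool.Agent.Lib.MP_8d161d_ag.CV.H3

/-!
The second main theorem for the unions of all large subfamilies.
-/

open Filter Topology MvPolynomial Module MeasureTheory

namespace Pool.Agent.Lib.GGL.CV

theorem sum_sub {N : ℕ} {R : Type*} [AddCommMonoid R] (S : Finset (Fin N)) (g : Fin N → R) :
    ∑ j : Fin S.card, g (S.orderEmbOfFin rfl j) = ∑ j ∈ S, g j := by
  calc ∑ j : Fin S.card, g (S.orderEmbOfFin rfl j)
      = ∑ j ∈ Finset.univ.map (S.orderEmbOfFin rfl).toEmbedding, g j := by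
        rw [Finset.sum_map]
        rfl
    _ = ∑ j ∈ S, g j := by rw [Finset.map_orderEmbOfFin_univ]

theorem prod_sub {N : ℕ} {R : Type*} [CommMonoid R] (S : Finset (Fin N)) (g : Fin N → R) :
    ∏ j : Fin S.card, g (S.orderEmbOfFin rfl j) = ∏ j ∈ S, g j := by
  calc ∏ j : Fin S.card, g (S.orderEmbOfFin rfl j)
      = ∏ j ∈ Finset.univ.map (S.orderEmbOfFin rfl).toEmbedding, g j := by
        rw [Finset.prod_map]
        rfl
    _ = ∏ j ∈ S, g j := by rw [Finset.map_orderEmbOfFin_univ]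

theorem exists_sub {N : ℕ} (S : Finset (Fin N)) (P : Fin N → Prop) :
    (∃ i : Fin S.card, P (S.orderEmbOfFin rfl i)) ↔ ∃ j ∈ S, P j := by
  constructor
  · rintro ⟨i, hi⟩
    exact ⟨_, S.orderEmbOfFin_mem rfl i, hi⟩
  · rintro ⟨j, hj, h⟩
    have h1 : j ∈ Set.range (S.orderEmbOfFin rfl) := by
      rw [Finset.range_orderEmbOfFin]
      exact hj
    obtain ⟨i, rfl⟩ := h1
    exact ⟨i, h⟩

/-- The second main theorem for the unions of all subfamilies with at least `4 · 10⁶ n¹⁰ k⁵`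
members. -/
theorem once_smt_sub {n d N k : ℕ} (hn : 1 ≤ n) (hd : 1 ≤ d) (hk : 1 ≤ k) :
    ∃ Θ : MvPolynomial (Fin N × Mon n d) ℂ, Θ ≠ 0 ∧ ∀ p : Fin N → Mon n d → ℂ,
      eval (fun x : Fin N × Mon n d => p x.1 x.2) Θ ≠ 0 →
      ∀ S : Finset (Fin N), 4 * 10 ^ 6 * n ^ 10 * k ^ 5 ≤ S.card →
      ∀ Y : ℂ → Fin (n + 1) → ℂ, Differentiable ℂ Y → (∀ z, Y z ≠ 0) → ¬ SM.IsConst Y →
        ∃ (C : ℝ) (E : Set ℝ), 0 ≤ C ∧ volume E < ⊤ ∧ ∀ r : ℝ, 1 ≤ r → r ∉ E →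
          (1 - 1 / (k : ℝ)) * S.card * d * SM.height Y r ≤
            CR.count (meets (fun i => p (S.orderEmbOfFin rfl i)) Y) r +
            C * (Real.log r + Real.posLog (SM.height Y r) + 1) := by
  classical
  have h := fun S : {S : Finset (Fin N) // 4 * 10 ^ 6 * n ^ 10 * k ^ 5 ≤ S.card} =>
    once_smt (n := n) (d := d) (N := S.1.card) hn hd hk S.2
  choose Θ hΘ h1 using h
  obtain ⟨e, he⟩ : ∃ e : (S : {S : Finset (Fin N) // 4 * 10 ^ 6 * n ^ 10 * k ^ 5 ≤ S.card}) →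
      Fin S.1.card × Mon n d → Fin N × Mon n d,
      e = fun S x => (S.1.orderEmbOfFin rfl x.1, x.2) := ⟨_, rfl⟩
  have hei : ∀ S, Function.Injective (e S) := by
    intro S x y hxy
    rw [he] at hxy
    simp only [Prod.mk.injEq] at hxy
    exact Prod.ext ((S.1.orderEmbOfFin rfl).injective hxy.1) hxy.2
  refine ⟨∏ S, rename (e S) (Θ S), Finset.prod_ne_zero_iff.2 fun S _ h0 =>
    hΘ S (rename_injective _ (hei S) (by rw [h0, map_zero])), ?_⟩
  intro p hp S hS Y hY h0 hnc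
  rw [map_prod, Finset.prod_ne_zero_iff] at hp
  refine h1 ⟨S, hS⟩ (fun i => p (S.orderEmbOfFin rfl i)) ?_ Y hY h0 hnc
  have h3 := hp ⟨S, hS⟩ (Finset.mem_univ _)
  rw [eval_rename, he] at h3
  exact h3

end Pool.Agent.Lib.GGL.CV
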